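import Pool.Agent.Lib.lead.CXNat

namespace Pool.Agent.Results.MP_dc7e63_lc.Hard
open Pool.Agent.Lib.CX Finset

/-- nodes `0..n-1` (unary `n`), coloured hyperedges, colours `0..k-1` (unary `k`), budget -/
abbrev Inst := List Unit × List (List ℕ × ℕ) × List Unit × ℕ

def Valid (I : Inst) : Prop := (∀ e ∈ I.2.1, (∀ v ∈ e.1, v < I.1.length) ∧ e.2 < I.2.2.1.length) ∧
  (I.2.1.map fun e => e.1.toFinset).Nodup

def Global (I : Inst) (S : ℕ → Finset ℕ) : Prop := (∀ v < I.1.length, S v ⊆ range I.2.2.1.length ∧ 1 ≤ (S v).card) ∧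
  ∑ v ∈ range I.1.length, ((S v).card - 1) ≤ I.2.2.2

def Robust (I : Inst) (S : ℕ → Finset ℕ) : Prop :=
  (∀ v < I.1.length, S v ⊆ range I.2.2.1.length ∧ ((S v).card = 1 ∨ S v = range I.2.2.1.length)) ∧
    ((range I.1.length).filter fun v => (S v).card ≠ 1).card ≤ I.2.2.2

def mistakes (I : Inst) (S : ℕ → Finset ℕ) : ℕ := I.2.1.countP fun e => decide (∃ v ∈ e.1, e.2 ∉ S v)

def ECCApprox (Feas : Inst → (ℕ → Finset ℕ) → Prop) (α : ℝ) : Prop := ∃ f : Inst → List (List ℕ), PT f ∧
  ∀ I, Valid I → (∃ S, Feas I S) → Feas I (fun v => ((f I).getD v []).toFinset) ∧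
    ∀ S, Feas I S → (mistakes I (fun v => ((f I).getD v []).toFinset) : ℝ) ≤ α * mistakes I S

def uni (F : List (List ℕ)) (T : Finset ℕ) : ℕ := (T.biUnion fun j => (F.getD j []).toFinset).card

/-- approximation of Minimum `p`-Union: choose at least `p` of the sets, minimise the size of their union -/
def MpUApprox (α : ℝ) : Prop := ∃ g : List (List ℕ) × ℕ → List ℕ, PT g ∧ ∀ F p, p ≤ F.length →
  (g (F, p)).toFinset ⊆ range F.length ∧ p ≤ (g (F, p)).toFinset.card ∧
    ∀ T ⊆ range F.length, p ≤ T.card → (uni F (g (F, p)).toFinset : ℝ) ≤ α * uni F T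

def base (F : List (List ℕ)) : List (List ℕ × ℕ) :=
  F.flatten.dedup.map (fun x => ((List.range F.length).filter fun j => decide (x ∈ F.getD j []), 1)) ++
    (List.range F.length).flatMap fun j => F.flatten.dedup.map fun _ => ([j], 0)
def inst (a : List (List ℕ) × ℕ) : Inst := (a.1.map (fun _ => ()) ++ (base a.1).map fun _ => (),
  (List.range (base a.1).length).map fun i => ((a.1.length + i) :: ((base a.1).getD i ([], 0)).1, ((base a.1).getD i ([], 0)).2),
  [(), ()], a.1.length - a.2)

theorem base_lt (F : List (List ℕ)) : ∀ e ∈ base F, (∀ v ∈ e.1, v < F.length) ∧ e.2 < 2 := by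
  simp only [base, List.mem_append, List.mem_map, List.mem_flatMap, List.mem_range]
  rintro _ (⟨x, _, rfl⟩ | ⟨j, h, _, _, rfl⟩)
  · simp +contextual
  · simp [h]

theorem valid (a : List (List ℕ) × ℕ) : Valid (inst a) := by
  have k := fun i (hi : i < (base a.1).length) => base_lt a.1 ((base a.1).getD i ([], 0))
    (by rw [List.getD_eq_getElem _ _ hi]; exact List.getElem_mem _)
  constructor
  · simp only [inst, List.forall_mem_map, List.mem_range, List.forall_mem_cons, List.length_append, List.length_map]
    exact fun i hi => ⟨⟨by omega, fun v hv => by have := (k i hi).1 v hv; omega⟩, (k i hi).2⟩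
  · simp only [inst, List.map_map]
    refine List.nodup_range.map_on fun i _ j hj h => ?_
    have : a.1.length + i ∈ _ := (congrArg (a.1.length + i ∈ ·) h).mp (by simp)
    simp only [Function.comp_apply, List.mem_toFinset, List.mem_cons] at this
    rcases this with e | e
    · omega
    · have := (k j (List.mem_range.1 hj)).1 _ e; omega

theorem rmg {α : Type} (l : List α) (d : α) : (List.range l.length).map (fun i => l.getD i d) = l :=
  List.ext_getElem (by simp) fun i h _ => by simp at h; simp [h]

theorem mis_ge (a : List (List ℕ) × ℕ) (S : ℕ → Finset ℕ) :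
    (base a.1).countP (fun e => decide (∃ v ∈ e.1, e.2 ∉ S v)) ≤ mistakes (inst a) S := by
  conv_lhs => rw [← rmg (base a.1) ([], 0)]
  simp only [mistakes, inst, List.countP_map]
  exact List.countP_mono_left fun i _ h => by
    simp only [Function.comp_apply, decide_eq_true_eq] at h ⊢
    obtain ⟨v, h1, h2⟩ := h
    exact ⟨v, List.mem_cons_of_mem _ h1, h2⟩

theorem mis_le (a : List (List ℕ) × ℕ) (S : ℕ → Finset ℕ)
    (h : ∀ i, ((base a.1).getD i ([], 0)).2 ∈ S (a.1.length + i)) :
    mistakes (inst a) S ≤ (base a.1).countP (fun e => decide (∃ v ∈ e.1, e.2 ∉ S v)) := by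
  conv_rhs => rw [← rmg (base a.1) ([], 0)]
  simp only [mistakes, inst, List.countP_map]
  exact List.countP_mono_left fun i _ h' => by
    simp only [Function.comp_apply, decide_eq_true_eq] at h' ⊢
    obtain ⟨v, h1, h2⟩ := h'
    rcases List.mem_cons.1 h1 with rfl | h1
    exacts [(h2 (h i)).elim, ⟨v, h1, h2⟩]

theorem red (Feas : Inst → (ℕ → Finset ℕ) → Prop) (α : ℝ) (hα : 0 ≤ α)
    (h1 : ∀ a S, Feas (inst a) S → Robust (inst a) S) (h2 : ∀ a S, Robust (inst a) S → Feas (inst a) S) :
    ECCApprox Feas α → MpUApprox α := by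
  rintro ⟨f, hf, h⟩
  have pb : PT base := by unfold base; fun_prop
  have pi : PT inst := by unfold inst; fun_prop
  refine ⟨fun a => (List.range a.1.length).filter fun j => decide (((f (inst a)).getD j []).dedup.length = 1),
    by fun_prop, fun F p hp => ?_⟩
  have fs : ∀ T ⊆ range F.length, p ≤ T.card → ∃ S, Feas (inst (F, p)) S ∧ mistakes (inst (F, p)) S ≤ uni F T := by
    intro T hT hc
    refine ⟨fun v => if v < F.length then (if v ∈ T then {0} else range 2) else {((base F).getD (v - F.length) ([], 0)).2},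
      h2 _ _ ⟨fun v hv => ?_, ?_⟩, (mis_le _ _ fun i => by simp).trans ?_⟩
    · simp only [inst, List.length_append, List.length_map] at hv ⊢
      split_ifs with k1 k2
      · simp
      · simp
      · have hi : v - F.length < (base F).length := by omega
        rw [List.getD_eq_getElem _ _ hi]
        simpa using (base_lt F _ (List.getElem_mem hi)).2
    · refine (card_le_card (t := range F.length \ T) fun v hv => ?_).trans ?_
      · simp only [mem_filter, mem_sdiff, mem_range] at hv ⊢
        split_ifs at hv with k1 k2 <;> simp_all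
      · rw [card_sdiff_of_subset hT, card_range]; simp only [inst]; omega
    · simp only [base, List.countP_append, List.countP_map]
      rw [List.countP_eq_zero (l := List.flatMap _ _) |>.2 ?_, add_zero, List.countP_eq_length_filter,
        ← List.toFinset_card_of_nodup ((List.nodup_dedup _).filter _)]
      · refine card_le_card fun x hx => ?_
        obtain ⟨j, j1, j3⟩ := of_decide_eq_true (List.mem_filter.1 (List.mem_toFinset.1 hx)).2
        simp only [decide_eq_true_eq, List.mem_filter, List.mem_range] at j1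
        obtain ⟨j1, j2⟩ := j1
        refine mem_biUnion.2 ⟨j, ?_, List.mem_toFinset.2 j2⟩
        by_contra hh; simp [j1, hh] at j3
      · simp only [List.mem_flatMap, List.mem_map, List.mem_range]
        rintro _ ⟨j, hj, _, _, rfl⟩
        simp only [List.mem_singleton, exists_eq_left, hj, if_true, decide_eq_true_eq, not_not]
        split_ifs <;> simp
  obtain ⟨k1, k2⟩ := h (inst (F, p)) (valid _) ((fs _ le_rfl (by simpa using hp)).imp fun _ h => h.1)
  set S : ℕ → Finset ℕ := fun v => ((f (inst (F, p))).getD v []).toFinset with hS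
  obtain ⟨r1, r2⟩ := h1 _ _ k1
  have e : ((List.range F.length).filter fun j => decide (((f (inst (F, p))).getD j []).dedup.length = 1)).toFinset =
      (range F.length).filter fun j => (S j).card = 1 := by
    ext j; simp only [hS, List.card_toFinset]; simp
  simp only [e]
  refine ⟨filter_subset _ _, ?_, fun T t1 t2 => ?_⟩
  · have := card_filter_add_card_filter_not (s := range F.length) fun j => (S j).card = 1
    have : ((range F.length).filter fun j => ¬(S j).card = 1).card ≤ _ := (card_le_card (filter_subset_filter _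
      (range_subset_range.2 (by simp [inst])))).trans r2
    simp only [inst, card_range] at *
    omega
  obtain ⟨S', s1, s2⟩ := fs T t1 t2
  refine le_trans (Nat.cast_le.2 (le_trans ?_ (mis_ge (F, p) S))) ((k2 S' s1).trans
    (mul_le_mul_of_nonneg_left (Nat.cast_le.2 s2) hα))
  simp only [base, List.countP_append, List.countP_map]
  have sb : ∀ j x, x ∈ F.getD j [] → j < F.length → x ∈ F.flatten.dedup := fun j x hx hj => by
    rw [List.getD_eq_getElem _ _ hj] at hx
    exact List.mem_dedup.2 (List.mem_flatten.2 ⟨_, List.getElem_mem _, hx⟩)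
  by_cases c : ∃ j < F.length, 0 ∉ S j
  · obtain ⟨j, j1, j2⟩ := c
    refine le_add_left (le_trans (b := F.flatten.dedup.length) ?_ ?_)
    · rw [← List.toFinset_card_of_nodup (List.nodup_dedup _)]
      refine card_le_card fun x hx => ?_
      obtain ⟨i, i1, i2⟩ := mem_biUnion.1 hx
      exact List.mem_toFinset.2 (sb i x (List.mem_toFinset.1 i2) (mem_range.1 (mem_filter.1 i1).1))
    · refine le_trans ?_ (List.Sublist.countP_le (List.sublist_flatten_of_mem (List.mem_map.2 ⟨j, List.mem_range.2 j1, rfl⟩)))
      rw [List.countP_eq_length.2 fun e he => ?_, List.length_map]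
      obtain ⟨_, _, rfl⟩ := List.mem_map.1 he
      exact decide_eq_true ⟨j, List.mem_singleton_self _, j2⟩
  · push Not at c
    refine le_add_right ?_
    rw [List.countP_eq_length_filter, ← List.toFinset_card_of_nodup ((List.nodup_dedup _).filter _)]
    refine card_le_card fun x hx => ?_
    obtain ⟨i, i1, i2⟩ := mem_biUnion.1 hx
    simp only [mem_filter, mem_range, List.mem_toFinset] at i1 i2
    refine List.mem_toFinset.2 (List.mem_filter.2 ⟨sb i x i2 i1.1, decide_eq_true ⟨i, by simpa using ⟨i1.1, i2⟩,
      fun hh : 1 ∈ S i => ?_⟩⟩)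
    obtain ⟨y, hy⟩ := card_eq_one.1 i1.2
    have := c i i1.1
    rw [hy, mem_singleton] at this hh
    omega

theorem result : (∀ α : ℝ, 1 ≤ α → (ECCApprox Global α → MpUApprox α) ∧ (ECCApprox Robust α → MpUApprox α)) ∧
    ((¬∃ β, MpUApprox β) → (¬∃ α ≥ 1, ECCApprox Global α) ∧ ¬∃ α ≥ 1, ECCApprox Robust α) := by
  have key : ∀ α : ℝ, 1 ≤ α → (ECCApprox Global α → MpUApprox α) ∧ (ECCApprox Robust α → MpUApprox α) := by
    refine fun α hα => ⟨red _ α (by linarith) ?_ ?_, red _ α (by linarith) (fun _ _ h => h) fun _ _ h => h⟩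
    · rintro a S ⟨h1, h2⟩
      refine ⟨fun v hv => ⟨(h1 v hv).1, ?_⟩, le_trans ?_ h2⟩
      · have := (h1 v hv).2
        by_cases e : (S v).card = 1
        exacts [Or.inl e, Or.inr (eq_of_subset_of_card_le (h1 v hv).1 (by
          simp only [inst, card_range, List.length_cons, List.length_nil]; omega))]
      · rw [card_filter]
        exact sum_le_sum fun v hv => by have := (h1 v (mem_range.1 hv)).2; split_ifs <;> omega
    · rintro a S ⟨h1, h2⟩
      refine ⟨fun v hv => ⟨(h1 v hv).1, (h1 v hv).2.elim Eq.ge fun e => by simp [e, inst]⟩, le_trans ?_ h2⟩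
      rw [card_filter]
      exact sum_le_sum fun v hv => by
        have := card_le_card (h1 v (mem_range.1 hv)).1
        simp only [inst, card_range, List.length_cons, List.length_nil] at this
        split_ifs <;> omega
  exact ⟨key, fun hn => ⟨fun ⟨α, a, b⟩ => hn ⟨α, (key α a).1 b⟩, fun ⟨α, a, b⟩ => hn ⟨α, (key α a).2 b⟩⟩⟩

end Pool.Agent.Results.MP_dc7e63_lc.Hard
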